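import Pool.Agent.W810.SYN.Stm

set_option autoImplicit false

namespace Pool.Agent.W37.SYN.MEAS

open MeasureTheory AddCircle Filter Topology Pool.Agent.Results.MP_535799_an.NonSidon
open Pool.Agent.W810.SYN

lemma two_pi_pos' : 0 < 2 * Real.pi := by positivity

lemma exists_rep (x : Circ) : ∃ y : ℝ, |y| ≤ Real.pi ∧ (y : Circ) = x := by
  have : Fact ((0:ℝ) < 2*Real.pi) := ⟨two_pi_pos'⟩
  refine ⟨((AddCircle.equivIoc (2*Real.pi) (-Real.pi) x) : ℝ), ?_, ?_⟩
  · have h := (AddCircle.equivIoc (2*Real.pi) (-Real.pi) x).2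
    rw [abs_le]
    constructor
    · exact h.1.le
    · have := h.2
      linarith
  · exact (AddCircle.equivIoc (2*Real.pi) (-Real.pi)).symm_apply_apply x

lemma sd_coe (y : ℝ) : sd (y : Circ) = 2 * |Real.sin (y / 2)| := by
  unfold sd
  rw [fourier_coe_apply]
  have h : (2 * (Real.pi : ℂ) * Complex.I * ((1 : ℤ) : ℂ) * (y : ℂ) / ((2 * Real.pi : ℝ) : ℂ)) =
      Complex.I * (y : ℂ) := by
    have hpi : (Real.pi : ℂ) ≠ 0 := by exact_mod_cast Real.pi_ne_zero
    push_cast
    field_simp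
  rw [h, norm_sub_rev, Complex.norm_exp_I_mul_ofReal_sub_one, Real.norm_eq_abs, abs_mul,
    abs_of_pos (by norm_num : (0:ℝ) < 2)]

lemma sd_ge (x : Circ) : 2 / Real.pi * ‖x‖ ≤ sd x := by
  have hpi := Real.pi_pos
  obtain ⟨y, hy, rfl⟩ := exists_rep x
  have h1 : ‖(y : Circ)‖ = |y| := by
    rw [AddCircle.norm_coe_eq_abs_iff (2 * Real.pi) two_pi_pos'.ne', abs_of_pos two_pi_pos']
    linarith
  rw [h1, sd_coe]
  have h2 := Real.mul_abs_le_abs_sin (x := y / 2) (by
    rw [abs_div, abs_of_pos (by norm_num : (0:ℝ) < 2)]; linarith)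
  rw [abs_div, abs_of_pos (by norm_num : (0:ℝ) < 2)] at h2
  calc 2 / Real.pi * |y| = 2 * (2 / Real.pi * (|y| / 2)) := by ring
    _ ≤ _ := by linarith

theorem main : S_MEAS := by
  intro δ hδ
  have hpi := Real.pi_pos
  have : Fact ((0:ℝ) < 2*Real.pi) := ⟨two_pi_pos'⟩
  have hsub : {x : Circ | sd x < δ} ⊆ Metric.closedBall (0 : Circ) (Real.pi * δ / 2) := by
    intro x hx
    rw [mem_closedBall_zero_iff]
    have h1 := sd_ge x
    have h2 : sd x < δ := hx
    have h3 : 2 / Real.pi * ‖x‖ ≤ δ := h1.trans h2.le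
    rw [div_mul_eq_mul_div, div_le_iff₀ hpi] at h3
    linarith
  have hvol := AddCircle.volume_closedBall (2 * Real.pi) (x := 0) (Real.pi * δ / 2)
  have hle : mu.real {x | sd x < δ} ≤ mu.real (Metric.closedBall (0 : Circ) (Real.pi * δ / 2)) :=
    measureReal_mono hsub
  refine hle.trans ?_
  have h4 : (volume : Measure Circ).real (Metric.closedBall (0 : Circ) (Real.pi * δ / 2)) =
      (2 * Real.pi) * mu.real (Metric.closedBall (0 : Circ) (Real.pi * δ / 2)) := by
    rw [AddCircle.volume_eq_smul_haarAddCircle]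
    simp only [Measure.real, Measure.smul_apply, smul_eq_mul, ENNReal.toReal_mul,
      ENNReal.toReal_ofReal two_pi_pos'.le]
  have h5 : (volume : Measure Circ).real (Metric.closedBall (0 : Circ) (Real.pi * δ / 2)) ≤
      Real.pi * δ := by
    rw [Measure.real, hvol]
    apply ENNReal.toReal_le_of_le_ofReal (by positivity)
    apply ENNReal.ofReal_le_ofReal
    refine (min_le_right _ _).trans (le_of_eq (by ring))
  rw [h4] at h5
  have h6 : Real.pi * (2 * mu.real (Metric.closedBall (0 : Circ) (Real.pi * δ / 2))) ≤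
      Real.pi * δ := by linarith
  have h7 := le_of_mul_le_mul_left h6 hpi
  linarith

end Pool.Agent.W37.SYN.MEAS
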